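import Pool.Agent.R94.IG.Stm

/-! IG-1 (helper141): the kernels `8^{ij} ± (-1)^{ij}` are positive semidefinite. -/

namespace Pool.Agent.R94.IG

open Matrix Finset

namespace P1aux

/-! ### the kernel `8^{ij} - 1` -/

theorem hasSum_exp' (x : ℝ) : HasSum (fun k : ℕ => x ^ k / (k.factorial : ℝ)) (Real.exp x) := by
  have h := NormedSpace.expSeries_div_hasSum_exp x
  rwa [← Real.exp_eq_exp_ℝ] at h

theorem eight (m : ℤ) : (8 : ℝ) ^ m = Real.exp (Real.log 8 * m) := by
  rw [← Real.rpow_intCast, Real.rpow_def_of_pos (by norm_num)]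

theorem quad_exp (n : ℕ) (a : Fin n → ℤ) (x : Fin n → ℝ) :
    (∑ i, x i) ^ 2 ≤ ∑ i, ∑ j, x i * x j * (8 : ℝ) ^ (a i * a j) := by
  have hl : 0 ≤ Real.log 8 := Real.log_nonneg (by norm_num)
  have h1 : HasSum (fun k : ℕ => (Real.log 8) ^ k / (k.factorial : ℝ) *
      (∑ i, x i * (a i : ℝ) ^ k) ^ 2) (∑ i, ∑ j, x i * x j * (8 : ℝ) ^ (a i * a j)) := by
    have h2 : ∀ i j : Fin n, HasSum (fun k : ℕ => x i * x j *
        ((Real.log 8 * ((a i : ℝ) * (a j : ℝ))) ^ k / (k.factorial : ℝ)))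
        (x i * x j * (8 : ℝ) ^ (a i * a j)) := by
      intro i j
      rw [eight]
      push_cast
      exact (hasSum_exp' _).mul_left _
    have h3 := hasSum_sum (s := (Finset.univ : Finset (Fin n))) fun i _ =>
      hasSum_sum (s := (Finset.univ : Finset (Fin n))) fun j _ => h2 i j
    have e : (fun k : ℕ => (Real.log 8) ^ k / (k.factorial : ℝ) *
        (∑ i, x i * (a i : ℝ) ^ k) ^ 2) = fun k : ℕ => ∑ i, ∑ j, x i * x j *
        ((Real.log 8 * ((a i : ℝ) * (a j : ℝ))) ^ k / (k.factorial : ℝ)) := by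
      funext k
      rw [pow_two, Finset.sum_mul_sum, Finset.mul_sum]
      refine Finset.sum_congr rfl fun i _ => ?_
      rw [Finset.mul_sum]
      refine Finset.sum_congr rfl fun j _ => ?_
      rw [mul_pow, mul_pow]
      ring
    rw [e]
    exact h3
  have h4 := le_hasSum h1 0 fun k _ => by positivity
  simpa using h4

/-! ### merging equal indices -/

theorem fiber {n : ℕ} (a : Fin n → ℤ) (x : Fin n → ℝ) (h : ℤ → ℝ) :
    ∑ p, x p * h (a p) = ∑ i ∈ univ.image a, (∑ p ∈ univ.filter (fun p => a p = i), x p) * h i := by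
  rw [← Finset.sum_fiberwise_of_maps_to (s := univ) (t := univ.image a) (g := a)
    (fun p hp => mem_image_of_mem a hp)]
  refine Finset.sum_congr rfl fun i _ => ?_
  rw [Finset.sum_mul]
  refine Finset.sum_congr rfl fun p hp => ?_
  rw [(mem_filter.1 hp).2]

theorem fiber2 {n : ℕ} (a : Fin n → ℤ) (x : Fin n → ℝ) (K : ℤ → ℤ → ℝ) :
    ∑ p, ∑ q, x p * x q * K (a p) (a q) = ∑ i ∈ univ.image a, ∑ j ∈ univ.image a,
      (∑ p ∈ univ.filter (fun p => a p = i), x p) * (∑ p ∈ univ.filter (fun p => a p = j), x p) *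
        K i j := by
  have h1 : ∀ p, ∑ q, x p * x q * K (a p) (a q) = x p * ∑ j ∈ univ.image a,
      (∑ q ∈ univ.filter (fun q => a q = j), x q) * K (a p) j := by
    intro p
    rw [← fiber a x (K (a p)), Finset.mul_sum]
    exact Finset.sum_congr rfl fun q _ => by ring
  simp only [h1]
  rw [fiber a x fun i => ∑ j ∈ univ.image a,
      (∑ q ∈ univ.filter (fun q => a q = j), x q) * K i j]
  refine Finset.sum_congr rfl fun i _ => ?_
  rw [Finset.mul_sum]
  exact Finset.sum_congr rfl fun j _ => by ring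

/-! ### geometric tails -/

theorem tail1 (ρ : ℝ) (h0 : 0 < ρ) (h1 : ρ < 1) (s : Finset ℤ) (g : ℤ → ℕ)
    (hg : Set.InjOn g s) : ∑ j ∈ s, ρ ^ g j ≤ (1 - ρ)⁻¹ := by
  rw [← tsum_geometric_of_lt_one h0.le h1, ← Finset.sum_image (f := fun m => ρ ^ m) hg]
  exact (summable_geometric_of_lt_one h0.le h1).sum_le_tsum _ fun _ _ => by positivity

theorem tail (ρ : ℝ) (h0 : 0 < ρ) (h1 : ρ < 1) (m : ℕ) (hm : 1 ≤ m) (i : ℤ) (s : Finset ℤ)
    (hs : ∀ j ∈ s, m ≤ (j - i).natAbs) :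
    ∑ j ∈ s, ρ ^ ((j - i).natAbs - m) ≤ 2 * (1 - ρ)⁻¹ := by
  rw [← Finset.sum_filter_add_sum_filter_not s (fun j => i < j), two_mul]
  refine add_le_add (tail1 ρ h0 h1 _ _ ?_) (tail1 ρ h0 h1 _ _ ?_)
  · intro j hj k hk h
    rw [mem_coe, mem_filter] at hj hk
    have := hs j hj.1
    have := hs k hk.1
    have h2 := hj.2
    have h3 := hk.2
    simp only at h
    omega
  · intro j hj k hk h
    rw [mem_coe, mem_filter] at hj hk
    have := hs j hj.1
    have := hs k hk.1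
    have h2 := hj.2
    have h3 := hk.2
    simp only at h
    omega

/-! ### the coefficients -/

/-- coefficients for neighbours -/
noncomputable def c1 (p q : ℕ) : ℝ :=
  if p = 0 then 12 / 25 else if p = 1 then (if q = 0 then 25 / 96 else 19 / 100)
  else if p = 2 then (if q = 1 then 25 / 38 else 29 / 100)
  else if p = 3 ∧ q = 2 then 25 / 58 else 354 / 1000

theorem c1_pos (p q : ℕ) : 0 < c1 p q := by
  unfold c1
  split_ifs <;> norm_num

theorem c1_mul (p : ℕ) : 1 / 8 ≤ c1 p (p + 1) * c1 (p + 1) p := by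
  unfold c1
  by_cases h0 : p = 0
  · subst h0
    norm_num
  · by_cases h1 : p = 1
    · subst h1
      norm_num
    · by_cases h2 : p = 2
      · subst h2
        norm_num
      · have e1 : p + 1 ≠ 0 := by omega
        have e2 : p + 1 ≠ 1 := by omega
        have e3 : p + 1 ≠ 2 := by omega
        have e4 : ¬ (p + 1 = 3 ∧ p = 2) := by omega
        have e5 : ¬ (p = 3 ∧ p + 1 = 2) := by omega
        rw [if_neg h0, if_neg h1, if_neg h2, if_neg e5, if_neg e1, if_neg e2, if_neg e3, if_neg e4]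
        norm_num

/-- coefficients -/
noncomputable def C (i j : ℤ) : ℝ :=
  if (j - i).natAbs = 1 then c1 i.natAbs j.natAbs else (1 / 8) ^ (j - i).natAbs

/-- `1 / √8` -/
noncomputable def β : ℝ := (Real.sqrt 8)⁻¹

theorem β_pos : 0 < β := by
  unfold β
  positivity

theorem β_sq : β ^ 2 = 1 / 8 := by
  unfold β
  rw [inv_pow, Real.sq_sqrt (by norm_num)]
  norm_num

theorem β_lt : β < 1 := by
  have h1 := β_sq
  have h2 := β_pos
  nlinarith

/-- the Toeplitz kernel -/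
noncomputable def T (i j : ℤ) : ℝ := β ^ ((j - i).natAbs ^ 2)

theorem T_pos (i j : ℤ) : 0 < T i j := pow_pos β_pos _

theorem T_self (i : ℤ) : T i i = 1 := by simp [T]

theorem C_pos (i j : ℤ) : 0 < C i j := by
  unfold C
  split_ifs
  · exact c1_pos _ _
  · positivity

theorem C_mul (i j : ℤ) (hij : i ≠ j) : T i j ^ 2 ≤ C i j * C j i := by
  have hsym : (i - j).natAbs = (j - i).natAbs := by omega
  unfold T C
  rw [hsym]
  by_cases h : (j - i).natAbs = 1
  · rw [if_pos h, if_pos h, h, one_pow, pow_one, β_sq]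
    have hc : j.natAbs = i.natAbs + 1 ∨ i.natAbs = j.natAbs + 1 := by omega
    rcases hc with hc | hc
    · rw [hc]
      exact c1_mul _
    · rw [hc, mul_comm]
      exact c1_mul _
  · rw [if_neg h, if_neg h, ← pow_mul, mul_comm, pow_mul, β_sq, ← pow_add]
    refine pow_le_pow_of_le_one (by norm_num) (by norm_num) ?_
    have h2 : 2 ≤ (j - i).natAbs := by omega
    nlinarith

theorem amgm (A B t u v : ℝ) (hA : 0 < A) (hAB : t ^ 2 ≤ A * B) :
    -(1 / 2 * (A * u ^ 2 + B * v ^ 2)) ≤ u * v * t := by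
  have h1 : 0 ≤ A * (A * u ^ 2 + B * v ^ 2 + 2 * (u * v * t)) := by
    have h2 : A * (A * u ^ 2 + B * v ^ 2 + 2 * (u * v * t)) =
        (A * u + t * v) ^ 2 + (A * B - t ^ 2) * v ^ 2 := by ring
    rw [h2]
    have h3 : 0 ≤ (A * B - t ^ 2) * v ^ 2 := mul_nonneg (by linarith) (sq_nonneg _)
    positivity
  have h4 := nonneg_of_mul_nonneg_right h1 hA
  linarith

/-- the weights for the odd indices -/
noncomputable def dd (i : ℤ) : ℝ := if i.natAbs = 1 then 32 / 63 else 1 / 1000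

theorem row (s : Finset ℤ) (i : ℤ) : dd i + ∑ j ∈ s.erase i, C i j ≤ 1 := by
  classical
  rw [← Finset.sum_filter_add_sum_filter_not (s.erase i) (fun j => (j - i).natAbs = 1)]
  have h1 : ∑ j ∈ (s.erase i).filter (fun j => (j - i).natAbs = 1), C i j ≤
      c1 i.natAbs (i - 1).natAbs + c1 i.natAbs (i + 1).natAbs := by
    have hsub : (s.erase i).filter (fun j => (j - i).natAbs = 1) ⊆ {i - 1, i + 1} := by
      intro j hj
      rw [mem_filter] at hj
      have := hj.2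
      simp only [mem_insert, mem_singleton]
      omega
    refine (sum_le_sum_of_subset_of_nonneg hsub fun j _ _ => (C_pos i j).le).trans ?_
    rw [sum_pair (by omega)]
    unfold C
    have e1 : (i - 1 - i).natAbs = 1 := by omega
    have e2 : (i + 1 - i).natAbs = 1 := by omega
    rw [if_pos e1, if_pos e2]
  have h2 : ∑ j ∈ (s.erase i).filter (fun j => ¬ (j - i).natAbs = 1), C i j ≤ 1 / 28 := by
    have h3 : ∀ j ∈ (s.erase i).filter (fun j => ¬ (j - i).natAbs = 1),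
        C i j = (1 / 64) * (1 / 8) ^ ((j - i).natAbs - 2) := by
      intro j hj
      rw [mem_filter, mem_erase] at hj
      have hd : 2 ≤ (j - i).natAbs := by
        have := hj.2
        have := hj.1.1
        omega
      unfold C
      rw [if_neg hj.2]
      obtain ⟨m, hm⟩ : ∃ m, (j - i).natAbs = m + 2 := ⟨(j - i).natAbs - 2, by omega⟩
      rw [hm, Nat.add_sub_cancel, pow_add]
      ring
    rw [Finset.sum_congr rfl h3, ← Finset.mul_sum]
    have h4 := tail (1 / 8) (by norm_num) (by norm_num) 2 (by norm_num) i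
      ((s.erase i).filter (fun j => ¬ (j - i).natAbs = 1)) (fun j hj => by
        rw [mem_filter, mem_erase] at hj
        have := hj.2
        have := hj.1.1
        omega)
    calc (1 / 64 : ℝ) * ∑ j ∈ (s.erase i).filter (fun j => ¬ (j - i).natAbs = 1),
          (1 / 8 : ℝ) ^ ((j - i).natAbs - 2) ≤ 1 / 64 * (2 * (1 - 1 / 8)⁻¹) :=
          mul_le_mul_of_nonneg_left h4 (by norm_num)
      _ = 1 / 28 := by norm_num
  have h5 : dd i + (c1 i.natAbs (i - 1).natAbs + c1 i.natAbs (i + 1).natAbs) ≤ 27 / 28 := by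
    by_cases hi : i.natAbs ≤ 3
    · have h6 : -3 ≤ i := by omega
      have h7 : i ≤ 3 := by omega
      interval_cases i <;> norm_num [dd, c1]
    · have e0 : i.natAbs ≠ 0 := by omega
      have e1 : i.natAbs ≠ 1 := by omega
      have e2 : i.natAbs ≠ 2 := by omega
      have e3 : ∀ q, ¬ (i.natAbs = 3 ∧ q = 2) := by omega
      unfold dd c1
      rw [if_neg e1, if_neg e0, if_neg e1, if_neg e2, if_neg (e3 _), if_neg e0, if_neg e1,
        if_neg e2, if_neg (e3 _)]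
      norm_num
  linarith

theorem toep (s : Finset ℤ) (z : ℤ → ℝ) :
    ∑ i ∈ s, dd i * z i ^ 2 ≤ ∑ i ∈ s, ∑ j ∈ s, z i * z j * T i j := by
  classical
  have h1 : ∀ i ∈ s, ∑ j ∈ s, z i * z j * T i j =
      z i ^ 2 + ∑ j ∈ s.erase i, z i * z j * T i j := by
    intro i hi
    rw [← Finset.add_sum_erase s _ hi, T_self]
    ring
  have h2 : ∀ i ∈ s, z i ^ 2 - 1 / 2 * (∑ j ∈ s.erase i, C i j) * z i ^ 2 -
      1 / 2 * ∑ j ∈ s.erase i, C j i * z j ^ 2 ≤ ∑ j ∈ s, z i * z j * T i j := by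
    intro i hi
    rw [h1 i hi]
    have h3 : ∑ j ∈ s.erase i, -(1 / 2 * (C i j * z i ^ 2 + C j i * z j ^ 2)) ≤
        ∑ j ∈ s.erase i, z i * z j * T i j := by
      refine Finset.sum_le_sum fun j hj => ?_
      have hne : i ≠ j := (ne_of_mem_erase hj).symm
      exact amgm _ _ _ _ _ (C_pos i j) (C_mul i j hne)
    have h4 : ∑ j ∈ s.erase i, -(1 / 2 * (C i j * z i ^ 2 + C j i * z j ^ 2)) =
        -(1 / 2 * (∑ j ∈ s.erase i, C i j) * z i ^ 2) -
          1 / 2 * ∑ j ∈ s.erase i, C j i * z j ^ 2 := by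
      rw [Finset.mul_sum, Finset.sum_mul, Finset.mul_sum, ← Finset.sum_neg_distrib,
        ← Finset.sum_sub_distrib]
      exact Finset.sum_congr rfl fun j _ => by ring
    rw [h4] at h3
    linarith
  have h5 := Finset.sum_le_sum h2
  refine le_trans ?_ h5
  have hswap : ∑ i ∈ s, ∑ j ∈ s.erase i, C j i * z j ^ 2 =
      ∑ j ∈ s, (∑ i ∈ s.erase j, C j i) * z j ^ 2 := by
    rw [Finset.sum_comm' (t' := s) (s' := fun j => s.erase j)]
    · exact Finset.sum_congr rfl fun j _ => by rw [Finset.sum_mul]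
    · intro i j
      simp only [mem_erase]
      constructor
      · rintro ⟨a, b, c⟩
        exact ⟨⟨fun h => b h.symm, a⟩, c⟩
      · rintro ⟨⟨a, b⟩, c⟩
        exact ⟨b, fun h => a h.symm, c⟩
  rw [Finset.sum_sub_distrib, Finset.sum_sub_distrib, ← Finset.mul_sum, hswap]
  have h6 : ∑ i ∈ s, 1 / 2 * (∑ j ∈ s.erase i, C i j) * z i ^ 2 =
      1 / 2 * ∑ i ∈ s, (∑ j ∈ s.erase i, C i j) * z i ^ 2 := by
    rw [Finset.mul_sum]
    exact Finset.sum_congr rfl fun i _ => by ring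
  rw [h6]
  have h7 : ∑ i ∈ s, dd i * z i ^ 2 ≤ ∑ i ∈ s, (z i ^ 2 - (∑ j ∈ s.erase i, C i j) * z i ^ 2) := by
    refine Finset.sum_le_sum fun i _ => ?_
    have h8 := row s i
    have h9 := mul_le_mul_of_nonneg_right h8 (sq_nonneg (z i))
    linarith
  rw [Finset.sum_sub_distrib] at h7
  linarith

/-! ### the odd part -/

theorem odd_part (s : Finset ℤ) (z : ℤ → ℝ) (hs : ∀ i ∈ s, Odd i) :
    2 * (∑ i ∈ s, z i * β ^ (i.natAbs ^ 2)) ^ 2 ≤ ∑ i ∈ s, dd i * z i ^ 2 := by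
  have hodd : ∀ i ∈ s, 1 ≤ i.natAbs := by
    intro i hi
    obtain ⟨k, hk⟩ := hs i hi
    omega
  have h1 : (∑ i ∈ s, z i * β ^ (i.natAbs ^ 2)) ^ 2 ≤ (∑ i ∈ s, (1 / 64 : ℝ) ^ (i.natAbs - 1)) *
      ∑ i ∈ s, z i ^ 2 * ((1 / 8) ^ (i.natAbs ^ 2) * 64 ^ (i.natAbs - 1)) := by
    refine Finset.sum_sq_le_sum_mul_sum_of_sq_le_mul s (fun i _ => by positivity)
      (fun i _ => by positivity) fun i _ => le_of_eq ?_
    rw [mul_pow, ← pow_mul, mul_comm (i.natAbs ^ 2) 2, pow_mul, β_sq]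
    have h2 : (1 / 64 : ℝ) ^ (i.natAbs - 1) * 64 ^ (i.natAbs - 1) = 1 := by
      rw [← mul_pow]
      norm_num
    calc z i ^ 2 * (1 / 8) ^ (i.natAbs ^ 2) = z i ^ 2 * (1 / 8) ^ (i.natAbs ^ 2) *
          ((1 / 64 : ℝ) ^ (i.natAbs - 1) * 64 ^ (i.natAbs - 1)) := by rw [h2, mul_one]
      _ = _ := by ring
  have h3 : ∑ i ∈ s, (1 / 64 : ℝ) ^ (i.natAbs - 1) ≤ 128 / 63 := by
    have h4 := tail (1 / 64) (by norm_num) (by norm_num) 1 le_rfl 0 s (fun i hi => by
      rw [sub_zero]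
      exact hodd i hi)
    simp only [sub_zero] at h4
    refine h4.trans (le_of_eq ?_)
    norm_num
  have h5 : ∀ i ∈ s, 256 / 63 * (z i ^ 2 * ((1 / 8 : ℝ) ^ (i.natAbs ^ 2) * 64 ^ (i.natAbs - 1))) ≤
      dd i * z i ^ 2 := by
    intro i hi
    obtain ⟨p, hp⟩ : ∃ p, i.natAbs = p + 1 := ⟨i.natAbs - 1, by have := hodd i hi; omega⟩
    have hp1 : p ≠ 1 := by
      rintro rfl
      obtain ⟨k, hk⟩ := hs i hi
      omega
    have h6 : (1 / 8 : ℝ) ^ (i.natAbs ^ 2) * 64 ^ (i.natAbs - 1) = (1 / 8) ^ (p ^ 2 + 1) := by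
      rw [hp, Nat.add_sub_cancel]
      have e1 : (p + 1) ^ 2 = (p ^ 2 + 1) + 2 * p := by ring
      have e2 : (64 : ℝ) ^ p = 8 ^ (2 * p) := by rw [pow_mul]; norm_num
      rw [e1, pow_add, e2, mul_assoc, ← mul_pow]
      norm_num
    rw [h6]
    have h7 : 256 / 63 * (1 / 8 : ℝ) ^ (p ^ 2 + 1) ≤ dd i := by
      unfold dd
      by_cases h0 : p = 0
      · subst h0
        rw [if_pos (by omega)]
        norm_num
      · rw [if_neg (by omega)]
        have hp2 : 2 ≤ p := by omega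
        have h8 : (1 / 8 : ℝ) ^ (p ^ 2 + 1) ≤ (1 / 8) ^ 5 :=
          pow_le_pow_of_le_one (by norm_num) (by norm_num) (by nlinarith)
        calc 256 / 63 * (1 / 8 : ℝ) ^ (p ^ 2 + 1) ≤ 256 / 63 * (1 / 8) ^ 5 :=
              mul_le_mul_of_nonneg_left h8 (by norm_num)
          _ ≤ 1 / 1000 := by norm_num
    have h9 := mul_le_mul_of_nonneg_right h7 (sq_nonneg (z i))
    linarith
  have h6 : 0 ≤ ∑ i ∈ s, z i ^ 2 * ((1 / 8 : ℝ) ^ (i.natAbs ^ 2) * 64 ^ (i.natAbs - 1)) :=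
    Finset.sum_nonneg fun i _ => by positivity
  calc 2 * (∑ i ∈ s, z i * β ^ (i.natAbs ^ 2)) ^ 2 ≤
        2 * ((∑ i ∈ s, (1 / 64 : ℝ) ^ (i.natAbs - 1)) *
        ∑ i ∈ s, z i ^ 2 * ((1 / 8) ^ (i.natAbs ^ 2) * 64 ^ (i.natAbs - 1))) := by linarith
    _ ≤ 2 * (128 / 63 * ∑ i ∈ s, z i ^ 2 * ((1 / 8) ^ (i.natAbs ^ 2) * 64 ^ (i.natAbs - 1))) := by
        have := mul_le_mul_of_nonneg_right h3 h6
        linarith
    _ = ∑ i ∈ s, 256 / 63 * (z i ^ 2 * ((1 / 8) ^ (i.natAbs ^ 2) * 64 ^ (i.natAbs - 1))) := by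
        rw [← Finset.mul_sum]
        ring
    _ ≤ _ := Finset.sum_le_sum h5

theorem T_eq (i j : ℤ) : β ^ (i.natAbs ^ 2) * β ^ (j.natAbs ^ 2) * (8 : ℝ) ^ (i * j) = T i j := by
  have hβ : β ≠ 0 := β_pos.ne'
  have e1 : ∀ m : ℤ, β ^ (m.natAbs ^ 2) = β ^ (m * m) := by
    intro m
    rw [← zpow_natCast]
    congr 1
    push_cast
    rw [sq_abs, pow_two]
  have e2 : (8 : ℝ) ^ (i * j) = β ^ (-(2 * (i * j))) := by
    have h8 : (8 : ℝ) = β ^ (-2 : ℤ) := by
      rw [_root_.zpow_neg]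
      have : β ^ (2 : ℤ) = 1 / 8 := by
        rw [← β_sq]
        norm_cast
      rw [this]
      norm_num
    rw [h8, ← _root_.zpow_mul]
    congr 1
    ring
  unfold T
  rw [e1, e1, e1, e2, ← zpow_add₀ hβ, ← zpow_add₀ hβ]
  congr 1
  ring

theorem main (s : Finset ℤ) (X : ℤ → ℝ) :
    2 * (∑ i ∈ s, if Odd i then X i else 0) ^ 2 ≤ ∑ i ∈ s, ∑ j ∈ s, X i * X j * (8 : ℝ) ^ (i * j) := by
  classical
  have hβ : β ≠ 0 := β_pos.ne'
  set z : ℤ → ℝ := fun i => X i / β ^ (i.natAbs ^ 2) with hz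
  have hXz : ∀ i, X i = z i * β ^ (i.natAbs ^ 2) := by
    intro i
    rw [hz]
    field_simp
  have h1 : ∑ i ∈ s, ∑ j ∈ s, X i * X j * (8 : ℝ) ^ (i * j) =
      ∑ i ∈ s, ∑ j ∈ s, z i * z j * T i j := by
    refine Finset.sum_congr rfl fun i _ => Finset.sum_congr rfl fun j _ => ?_
    rw [← T_eq, hXz i, hXz j]
    ring
  rw [h1]
  refine le_trans ?_ (toep s z)
  rw [← Finset.sum_filter]
  have h2 := odd_part (s.filter fun i => Odd i) z fun i hi => (mem_filter.1 hi).2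
  have h3 : ∑ i ∈ s.filter (fun i => Odd i), X i =
      ∑ i ∈ s.filter (fun i => Odd i), z i * β ^ (i.natAbs ^ 2) :=
    Finset.sum_congr rfl fun i _ => hXz i
  rw [h3]
  refine h2.trans (sum_le_sum_of_subset_of_nonneg (filter_subset _ _) fun i _ _ => ?_)
  have : 0 ≤ dd i := by
    unfold dd
    split_ifs <;> norm_num
  positivity

/-- indicator of the odd integers -/
noncomputable def o (i : ℤ) : ℝ := if Odd i then 1 else 0

theorem sign_eq (i j : ℤ) : (-1 : ℝ) ^ (i * j) = 1 - 2 * (o i * o j) := by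
  unfold o
  by_cases hi : Odd i
  · by_cases hj : Odd j
    · rw [if_pos hi, if_pos hj, (hi.mul hj).neg_one_zpow]
      norm_num
    · rw [if_neg hj, Int.not_odd_iff_even] at *
      rw [(hj.mul_left i).neg_one_zpow]
      norm_num
  · rw [if_neg hi]
    rw [Int.not_odd_iff_even] at hi
    rw [(hi.mul_right j).neg_one_zpow]
    norm_num

theorem quad_sign {n : ℕ} (a : Fin n → ℤ) (x : Fin n → ℝ) :
    ∑ p, ∑ q, x p * x q * (-1 : ℝ) ^ (a p * a q) =
      (∑ p, x p) ^ 2 - 2 * (∑ p, x p * o (a p)) ^ 2 := by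
  have h1 : (∑ p, x p) ^ 2 = ∑ p, ∑ q, x p * x q := by
    rw [pow_two, Finset.sum_mul_sum]
  have h2 : (∑ p, x p * o (a p)) ^ 2 = ∑ p, ∑ q, x p * o (a p) * (x q * o (a q)) := by
    rw [pow_two, Finset.sum_mul_sum]
  rw [h1, h2, Finset.mul_sum, ← Finset.sum_sub_distrib]
  refine Finset.sum_congr rfl fun p _ => ?_
  rw [Finset.mul_sum, ← Finset.sum_sub_distrib]
  refine Finset.sum_congr rfl fun q _ => ?_
  rw [sign_eq]
  ring

theorem quad_main {n : ℕ} (a : Fin n → ℤ) (x : Fin n → ℝ) :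
    2 * (∑ p, x p * o (a p)) ^ 2 ≤ ∑ p, ∑ q, x p * x q * (8 : ℝ) ^ (a p * a q) := by
  rw [fiber2 a x fun i j => (8 : ℝ) ^ (i * j), fiber a x o]
  have h := main (univ.image a) fun i => ∑ p ∈ univ.filter (fun p => a p = i), x p
  refine le_trans (le_of_eq ?_) h
  congr 2
  refine Finset.sum_congr rfl fun i _ => ?_
  unfold o
  split_ifs <;> simp

end P1aux

open P1aux

theorem s1 : S1 := by
  intro n a
  have hq : ∀ (M : Matrix (Fin n) (Fin n) ℝ) (x : Fin n → ℝ),
      star x ⬝ᵥ (M *ᵥ x) = ∑ i, ∑ j, x i * x j * M i j := by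
    intro M x
    simp only [dotProduct, mulVec, Finset.mul_sum, Pi.star_apply, star_trivial]
    exact Finset.sum_congr rfl fun i _ => Finset.sum_congr rfl fun j _ => by ring
  constructor
  · refine Matrix.PosSemidef.of_dotProduct_mulVec_nonneg ?_ fun x => ?_
    · ext i j
      simp only [Matrix.conjTranspose_apply, Matrix.of_apply, star_trivial]
      rw [mul_comm]
    · rw [hq]
      simp only [Matrix.of_apply, mul_add, Finset.sum_add_distrib]
      rw [quad_sign]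
      have h1 := quad_main a x
      have h2 := sq_nonneg (∑ p, x p)
      linarith
  · refine Matrix.PosSemidef.of_dotProduct_mulVec_nonneg ?_ fun x => ?_
    · ext i j
      simp only [Matrix.conjTranspose_apply, Matrix.of_apply, star_trivial]
      rw [mul_comm]
    · rw [hq]
      simp only [Matrix.of_apply, mul_sub, Finset.sum_sub_distrib]
      rw [quad_sign]
      have h1 := quad_exp n a x
      have h2 := sq_nonneg (∑ p, x p * o (a p))
      linarith

end Pool.Agent.R94.IG
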