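import Pool.Agent.R94.IG.Stm

/-! IG-2 (helper141): tensor step. -/

namespace Pool.Agent.R94.IG

open Matrix

namespace P2aux

/-- the two kernels for a matrix of integer vectors -/
noncomputable def Kp {n d : ℕ} (X : Matrix (Fin d) (Fin n) ℤ) : Matrix (Fin n) (Fin n) ℝ :=
  Matrix.of fun i j => (8 : ℝ) ^ ((Xᵀ * X) i j) + (-1 : ℝ) ^ ((Xᵀ * X) i j)

noncomputable def Km {n d : ℕ} (X : Matrix (Fin d) (Fin n) ℤ) : Matrix (Fin n) (Fin n) ℝ :=
  Matrix.of fun i j => (8 : ℝ) ^ ((Xᵀ * X) i j) - (-1 : ℝ) ^ ((Xᵀ * X) i j)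

theorem gram {n d : ℕ} (X : Matrix (Fin (d + 1)) (Fin n) ℤ) (i j : Fin n) :
    (Xᵀ * X) i j = X 0 i * X 0 j +
      ((Matrix.of fun r k => X (Fin.succ r) k)ᵀ * (Matrix.of fun r k => X (Fin.succ r) k)) i j := by
  simp only [Matrix.mul_apply, Matrix.transpose_apply, Matrix.of_apply]
  rw [Fin.sum_univ_succ]

theorem both (h1 : S1) (n d : ℕ) (X : Matrix (Fin d) (Fin n) ℤ) :
    (Kp X).PosSemidef ∧ (Km X).PosSemidef := by
  induction d with
  | zero =>
    have hp : Kp X = Matrix.of fun _ _ : Fin n => (2 : ℝ) := by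
      ext i j
      simp [Kp, Matrix.mul_apply]
      norm_num
    have hm : Km X = 0 := by
      ext i j
      simp [Km, Matrix.mul_apply]
    refine ⟨?_, by rw [hm]; exact Matrix.PosSemidef.zero⟩
    rw [hp]
    have h2 := h1 n (fun _ => 0)
    have h3 := h2.1
    have e : (Matrix.of fun i j : Fin n => (8 : ℝ) ^ ((0 : ℤ) * 0) + (-1 : ℝ) ^ ((0 : ℤ) * 0)) =
        Matrix.of fun _ _ : Fin n => (2 : ℝ) := by
      ext i j
      simp
      norm_num
    rwa [e] at h3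
  | succ d ih =>
    obtain ⟨hp, hm⟩ := ih (Matrix.of fun r k => X (Fin.succ r) k)
    obtain ⟨gp, gm⟩ := h1 n (X 0)
    set Y : Matrix (Fin d) (Fin n) ℤ := Matrix.of fun r k => X (Fin.succ r) k with hY
    have h8 : (8 : ℝ) ≠ 0 := by norm_num
    have h1' : (-1 : ℝ) ≠ 0 := by norm_num
    have ep : Kp X = (1 / 2 : ℝ) •
        (((Matrix.of fun i j : Fin n => (8 : ℝ) ^ (X 0 i * X 0 j) + (-1 : ℝ) ^ (X 0 i * X 0 j)) ⊙
          Kp Y) +
        ((Matrix.of fun i j : Fin n => (8 : ℝ) ^ (X 0 i * X 0 j) - (-1 : ℝ) ^ (X 0 i * X 0 j)) ⊙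
          Km Y)) := by
      ext i j
      simp only [Kp, Km, Matrix.of_apply, Matrix.smul_apply, Matrix.add_apply,
        Matrix.hadamard_apply, smul_eq_mul]
      rw [gram X i j, zpow_add₀ h8, zpow_add₀ h1']
      ring
    have em : Km X = (1 / 2 : ℝ) •
        (((Matrix.of fun i j : Fin n => (8 : ℝ) ^ (X 0 i * X 0 j) + (-1 : ℝ) ^ (X 0 i * X 0 j)) ⊙
          Km Y) +
        ((Matrix.of fun i j : Fin n => (8 : ℝ) ^ (X 0 i * X 0 j) - (-1 : ℝ) ^ (X 0 i * X 0 j)) ⊙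
          Kp Y)) := by
      ext i j
      simp only [Kp, Km, Matrix.of_apply, Matrix.smul_apply, Matrix.add_apply,
        Matrix.hadamard_apply, smul_eq_mul]
      rw [gram X i j, zpow_add₀ h8, zpow_add₀ h1']
      ring
    rw [ep, em]
    exact ⟨((gp.hadamard hp).add (gm.hadamard hm)).smul (by norm_num),
      ((gp.hadamard hm).add (gm.hadamard hp)).smul (by norm_num)⟩

end P2aux

theorem s2 : S2 := fun h1 n d X => (P2aux.both h1 n d X).1

end Pool.Agent.R94.IG
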