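import Pool.Agent.R94.IG.Stm

/-! IG-3 (helper141): `F` is no power series with nonnegative coefficients. -/

namespace Pool.Agent.R94.IG

namespace P3aux

theorem coef_nonneg (k : ℕ) : 0 ≤ ((3 : ℝ) ^ k + (-3 : ℝ) ^ k) - 27 / 2 * ((2 : ℝ) ^ k + (-2 : ℝ) ^ k)
    + 135 * ((1 : ℝ) ^ k + (-1 : ℝ) ^ k) - 245 * (0 : ℝ) ^ k := by
  rcases Nat.even_or_odd k with hk | hk
  · rw [hk.neg_pow, hk.neg_pow, hk.neg_pow]
    by_cases h8 : k < 8
    · interval_cases k <;> first | (norm_num; done) | (exfalso; revert hk; decide)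
    · have hk0 : k ≠ 0 := by omega
      rw [zero_pow hk0, one_pow]
      obtain ⟨m, rfl⟩ : ∃ m, k = 8 + m := ⟨k - 8, by omega⟩
      have h3 : (3 : ℝ) ^ (8 + m) = 6561 * 3 ^ m := by rw [pow_add]; norm_num
      have h2 : (2 : ℝ) ^ (8 + m) = 256 * 2 ^ m := by rw [pow_add]; norm_num
      have h32 : (2 : ℝ) ^ m ≤ 3 ^ m := pow_le_pow_left₀ (by norm_num) (by norm_num) m
      have h20 : (0 : ℝ) < 2 ^ m := by positivity
      rw [h3, h2]
      linarith
  · rw [hk.neg_pow, hk.neg_pow, hk.neg_pow]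
    have hk0 : k ≠ 0 := by
      rintro rfl
      exact absurd hk (by decide)
    rw [zero_pow hk0]
    linarith

end P3aux

theorem s3 : S3 := by
  rintro ⟨c, hc, h⟩
  have h3 := h 3
  have h3' := h (-3)
  have h2 := h 2
  have h2' := h (-2)
  have h1 := h 1
  have h1' := h (-1)
  have h0 := h 0
  have H := ((((h3.add h3').sub ((h2.add h2').mul_left (27 / 2))).add
    ((h1.add h1').mul_left 135)).sub (h0.mul_left 245))
  have hnn := H.nonneg (fun k => by
    have := mul_nonneg (hc k) (P3aux.coef_nonneg k)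
    push_cast
    nlinarith [this])
  simp only [F] at hnn
  norm_num [zpow_neg] at hnn

end Pool.Agent.R94.IG
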