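import Mathlib

/-! Project IG (helper94), MP_6cd9e0_an, restricted family: Gram matrices of INTEGER VECTORS.
`f m = 8^m + (-1)^m` preserves positivity on every matrix `Xᵀ X` with `X` an integer matrix (any size),
but agrees on `ℤ` with no power series with nonnegative coefficients. -/

namespace Pool.Agent.R94.IG

open Matrix

/-- the function of the counterexample -/
noncomputable def F (m : ℤ) : ℝ := (8 : ℝ) ^ m + (-1 : ℝ) ^ m

/-- IG-1 (one dimension): on every finite family of integers, the kernels `8^{ij} ± (-1)^{ij}` are psd -/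
def S1 : Prop :=
  ∀ (n : ℕ) (a : Fin n → ℤ),
    (Matrix.of fun i j : Fin n => (8 : ℝ) ^ (a i * a j) + (-1 : ℝ) ^ (a i * a j)).PosSemidef ∧
    (Matrix.of fun i j : Fin n => (8 : ℝ) ^ (a i * a j) - (-1 : ℝ) ^ (a i * a j)).PosSemidef

/-- IG-2 (tensor step): from the 1-dimensional statement to all dimensions -/
def S2 : Prop :=
  S1 → ∀ (n d : ℕ) (X : Matrix (Fin d) (Fin n) ℤ),
    (Matrix.of fun i j : Fin n => F ((Xᵀ * X) i j)).PosSemidef

/-- IG-3: `F` is no power series with nonnegative coefficients on `ℤ` -/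
def S3 : Prop :=
  ¬ ∃ c : ℕ → ℝ, (∀ k, 0 ≤ c k) ∧ ∀ m : ℤ, HasSum (fun k : ℕ => c k * (m : ℝ) ^ k) (F m)

/-- final statement -/
def Final : Prop :=
  ∃ f : ℤ → ℝ,
    (∀ (n d : ℕ) (X : Matrix (Fin d) (Fin n) ℤ),
      (Matrix.of fun i j : Fin n => f ((Xᵀ * X) i j)).PosSemidef) ∧
    ¬ ∃ c : ℕ → ℝ, (∀ k, 0 ≤ c k) ∧ ∀ m : ℤ, HasSum (fun k : ℕ => c k * (m : ℝ) ^ k) (f m)

theorem final (h1 : S1) (h2 : S2) (h3 : S3) : Final := ⟨F, h2 h1, h3⟩

end Pool.Agent.R94.IG
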